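import Pool.Agent.H.MP_790f3b_al.Main

set_option autoImplicit false

namespace Pool.Agent.Results.MP_790f3b_al.Q1

universe v

open scoped commutatorElement in

theorem result : ∃ (G : Type) (_ : Group G),
    (∃ g h : G, g * h ≠ h * g) ∧ commutator G ≤ Subgroup.center G ∧
    ∀ (A : Type v) [AddCommGroup A] [Group A],
      (∀ a b c : A, a * (b + c) = a * b - a + a * c) → IsEmpty (G ≃* A) := by
  open Pool.Agent.H.MP_790f3b_al in
  refine ⟨GG, inferInstance, ⟨xx, yy, fun e => gp.{0}.nsq 1 ZZ.one_mem (by simpa using e)⟩, ?_,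
    fun A _ _ h => ⟨no_brace A h⟩⟩
  open Pool.Agent.H.MP_790f3b_al in
  rw [commutator_def, Subgroup.commutator_le]
  intro g _ h _
  obtain ⟨z, hz, e⟩ := Pool.Agent.H.MP_790f3b_al.gp.{0}.c2 g h
  have : ⁅g, h⁆ = z := by rw [commutatorElement_def, e]; group
  rw [this, Subgroup.mem_center_iff]
  exact fun a => (Pool.Agent.H.MP_790f3b_al.gp.{0}.cen z hz a).symm

end Pool.Agent.Results.MP_790f3b_al.Q1
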